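import Mathlib
import Pool.Agent.H361R2.Density
import Pool.Agent.H361R2.Bridge
import Pool.Agent.H410R2.MFinal

/-! A positive proportion of all pairs `(a, d)` has the property of the question. -/

theorem Pool.Agent.Results.MP_8bf9c2_nt.PositiveProportion.result :
    ∃ c : ℝ, 0 < c ∧ ∃ Y₀ : ℕ, ∀ X Y : ℕ, Y₀ ≤ Y → Y ≤ X →
      c * X * Y ≤ (Set.ncard {ad : ℤ × ℤ | |ad.1| ≤ X ∧ 1 ≤ ad.2 ∧ ad.2 ≤ Y ∧
        Int.gcd ad.1 ad.2 = 1 ∧ 2 ∣ ad.1 * ad.2 ∧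
        {q : ℕ | q.Prime ∧ ∃ p : ℕ, p.Prime ∧ (ad.1 + q * ad.2 : ℤ) = p}.Infinite} : ℝ) :=
  Pool.Agent.H361R2.positive_proportion 2000
    (Pool.Agent.H361R2.bridge 2000 Pool.Agent.H410R2.maynardTao)
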