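import Mathlib
import Pool.Agent.H362R2.CM.Expo

/-!
For every `D ≥ 2` and every integer `c` prime to `D`, the set of exponents `j` such that
`c (1 - D ^ j) + q D ^ j` is prime for infinitely many primes `q` has lower density at least `1/4`.
-/

namespace Pool.Agent.Results.MP_8bf9c2_nt.QuarterOfPowers

theorem result : ∀ (c : ℤ) (D : ℕ), 2 ≤ D → IsCoprime c (D : ℤ) → ∀ ε : ℝ, 0 < ε →
    ∃ N0 : ℕ, ∀ N ≥ N0, (1 / 4 - ε) * (N : ℝ) ≤
      ({j : ℕ | 1 ≤ j ∧ j ≤ N ∧ {q : ℕ | q.Prime ∧ 0 < c * (1 - (D : ℤ) ^ j) + q * (D : ℤ) ^ j ∧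
        Prime (c * (1 - (D : ℤ) ^ j) + q * (D : ℤ) ^ j)}.Infinite}.ncard : ℝ) :=
  Pool.Agent.H362R2.CM.expo_density

end Pool.Agent.Results.MP_8bf9c2_nt.QuarterOfPowers
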