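import Mathlib
import Pool.Agent.H361R2.Ratio
import Pool.Agent.H361R2.Bridge
import Pool.Agent.H410R2.MFinal

/-! The pairs `(c (1 - D), D)`: the question for ratios of shifted primes. -/

theorem Pool.Agent.Results.MP_8bf9c2_nt.ShiftedRatios.result :
    ∀ c : ℤ, c ≠ 0 → ∃ F : Finset ℕ, F.card < 2000 ∧ (∀ f ∈ F, 2 ≤ f) ∧
      ∀ d : ℕ, 1 ≤ d → Int.gcd d c = 1 → ∃ f ∈ F,
        {q : ℕ | q.Prime ∧ ∃ p : ℕ, p.Prime ∧
          (c * (1 - f * d) + q * (f * d) : ℤ) = p}.Infinite := by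
  intro c hc
  obtain ⟨F, h1, h2, h3⟩ := Pool.Agent.H361R2.ratio_syndetic 2000
    (Pool.Agent.H361R2.bridge 2000 Pool.Agent.H410R2.maynardTao) hc
  refine ⟨F, h1, h2, fun d hd hg => ?_⟩
  obtain ⟨f, hf, hgood⟩ := h3 d hd (Int.isCoprime_iff_gcd_eq_one.2 hg)
  refine ⟨f, hf, hgood.mono ?_⟩
  rintro q ⟨hq, p, hp, hpq⟩
  refine ⟨hq, p, hp, ?_⟩
  push_cast at hpq
  linarith
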