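import Mathlib
import Pool.Agent.H361R2.Density
import Pool.Agent.H361R2.Bridge
import Pool.Agent.H410R2.MFinal

/-! Every coprime pair `(a, d)` becomes good after one of finitely many universal substitutions. -/

theorem Pool.Agent.Results.MP_8bf9c2_nt.SyndeticPairs.result :
    ∃ F : Finset (ℤ × ℤ), (∀ f ∈ F, 1 ≤ f.2) ∧ ∀ a d : ℤ, 1 ≤ d → Int.gcd a d = 1 →
      ∃ f ∈ F, Int.gcd (a + d * f.1) (d * f.2) = 1 ∧ 2 ∣ (a + d * f.1) * (d * f.2) ∧
        {q : ℕ | q.Prime ∧ ∃ p : ℕ, p.Prime ∧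
          ((a + d * f.1) + q * (d * f.2) : ℤ) = p}.Infinite := by
  classical
  obtain ⟨F, hF⟩ := Pool.Agent.H361R2.syndetic 2000
    (Pool.Agent.H361R2.bridge 2000 Pool.Agent.H410R2.maynardTao)
  refine ⟨(F.filter (fun f => 0 < f.2)).image (fun f => (f.1, (f.2 : ℤ))), ?_, ?_⟩
  · intro f hf
    obtain ⟨g, hg, rfl⟩ := Finset.mem_image.1 hf
    have := (Finset.mem_filter.1 hg).2
    simp only
    omega
  · intro a d hd hg
    obtain ⟨n, hn⟩ := Int.eq_ofNat_of_zero_le (by omega : 0 ≤ d)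
    subst hn
    have hn0 : 0 < n := by omega
    obtain ⟨f, hf, hf2, hgood⟩ := hF a n hn0 (Int.isCoprime_iff_gcd_eq_one.2 hg)
    refine ⟨(f.1, (f.2 : ℤ)), Finset.mem_image.2 ⟨f, Finset.mem_filter.2 ⟨hf, hf2⟩, rfl⟩, ?_⟩
    have hd' : (0 : ℤ) < (n : ℤ) * f.2 := by positivity
    simp only
    exact ⟨Pool.Agent.H361R2.good_gcd hd' hgood, Pool.Agent.H361R2.good_parity hd' hgood, hgood⟩
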